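import Pool.Agent.Lib.MP_86f51d_al.Final

/-!
`MP_86f51d_al`, Q1: not every finitely generated right-angled Artin group embeds into a diagram
group.
-/

namespace Pool.Agent.Results.MP_86f51d_al.NoEmbeddingIntoDiagramGroups

universe u v

/-- The right-angled Artin group of the graph `Gam` with the 14 vertices `a_i`, `b_i`
(`i = 0, ..., 6`) and the edges `b_i ~ b_j`, `a_i ~ b_j` for `i ≠ j` admits no injective
homomorphism into any diagram group `D(P, w)`. -/
theorem result (α : Type u) (ι : Type v) (P : DG.SemigroupPresentation α ι) (w : List α)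
    (_ : w ≠ []) :
    ¬ ∃ f : DG.RAAG DG.Gam →* P.DiagramGroup w, Function.Injective f :=
  DG.not_embeds α ι P w

end Pool.Agent.Results.MP_86f51d_al.NoEmbeddingIntoDiagramGroups
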